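import Pool.Agent.V11210.NF.H2

/-!
# The Frobenius averages on the second cohomology of the fibres, for almost all fibrations in products of curves whose coefficients
# arise from arbitrary integers by changing a few digits, and for all quadratic twists of the factors

`C_i : y² = F_i(x, t)`, `i < k`, are curves over the function field of the affine space with the coordinates `t`, and `𝒳` is the fibre
product over this base of `C_(σ 1), …, C_(σ q)` (twisted by integers `d_1, …, d_q`).  By Künneth the trace of Frobenius on the second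
cohomology of the fibre over a point `t` over `𝔽_p` is `q p + ∑_(i < j) a_i(t) a_j(t)`, where `a_i(t)` is the trace on the first
cohomology of the `i`-th factor.
-/

set_option autoImplicit false

namespace Pool.Agent.Results.MP_6090f9_nt.FewDigitProducts

open Finset

variable {m k q a₀ e : ℕ}

/-- The polynomial `F_i = F⁰_i + ∑ c_(i,a,α) x^a t^α`, where `x = X 0`, the variables `X 1, …, X (m + 1)` are the coordinates `t` of
the base and `a < a₀`, `α_j ≤ e`. -/
noncomputable def equation (F : Fin k → MvPolynomial (Fin (m + 1 + 1)) ℤ)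
    (c : Fin k × (Fin a₀ × (Fin (m + 1) → Fin (e + 1))) → ℤ) (i : Fin k) : MvPolynomial (Fin (m + 1 + 1)) ℤ :=
  F i + ∑ μ, MvPolynomial.C (c (i, μ)) * (MvPolynomial.X 0 ^ (μ.1 : ℕ) * ∏ j, MvPolynomial.X (Fin.succ j) ^ (μ.2 j : ℕ))

/-- `F` is monic of odd degree at least `a₀` in the variable `x = X 0`. -/
def MonicOdd (a₀ : ℕ) (F : MvPolynomial (Fin (m + 1 + 1)) ℤ) : Prop :=
  (MvPolynomial.finSuccEquiv ℤ (m + 1) F).Monic ∧ Odd (MvPolynomial.finSuccEquiv ℤ (m + 1) F).natDegree ∧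
    a₀ ≤ (MvPolynomial.finSuccEquiv ℤ (m + 1) F).natDegree

/-- The trace of the fibre of `d y² = F(x, t)` over the point `t`: the number `p - #{(x, y) : d y² = F(x, t)}` (there is one point at
infinity). -/
noncomputable def trace (F : MvPolynomial (Fin (m + 1 + 1)) ℤ) (d : ℤ) (p : ℕ) (t : Fin (m + 1) → ZMod p) : ℝ :=
  p - (Nat.card {P : ZMod p × ZMod p // (d : ZMod p) * P.2 ^ 2 = MvPolynomial.aeval (Fin.cons P.1 t : Fin (m + 1 + 1) → ZMod p) F} : ℝ)

/-- The average `𝔅_p`: the sum of `q p + ∑_(i < j) a_i(t) a_j(t)` over all points `t` of the base over `𝔽_p`, divided by `p^(m+1)`. -/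
noncomputable def average (F : Fin q → MvPolynomial (Fin (m + 1 + 1)) ℤ) (d : Fin q → ℤ) (p : ℕ) : ℝ :=
  q * p + (∑ᶠ t : Fin (m + 1) → ZMod p, ∑ u ∈ (univ : Finset (Fin q × Fin q)).filter (fun u => u.1 < u.2),
    trace (F u.1) (d u.1) p t * trace (F u.2) (d u.2) p t) / (p : ℝ) ^ (m + 1)

/-- `q + ∑ (d_i d_j / p)` over the pairs `i < j` with `σ i = σ j`: the trace of Frobenius on the classes of the divisors. -/
noncomputable def divisorTrace (σ : Fin q → Fin k) (d : Fin q → ℤ) (p : ℕ) : ℝ :=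
  q + ∑ u ∈ ((univ : Finset (Fin q × Fin q)).filter (fun u => u.1 < u.2)).filter (fun u => σ u.1 = σ u.2),
    (jacobiSym (d u.1 * d u.2) p : ℝ)

open Classical in
/-- `∑ (𝔅_p - p · divisorTrace) (log p) p^(-s)` over the primes `T₁ ≤ p < T₂` outside `R` which do not divide `2 d_1 ⋯ d_q`. -/
noncomputable def series (F : Fin q → MvPolynomial (Fin (m + 1 + 1)) ℤ) (σ : Fin q → Fin k) (d : Fin q → ℤ) (R : Set ℕ) (T₁ T₂ : ℕ)
    (s : ℂ) : ℂ :=
  ∑ p ∈ (Ico T₁ T₂).filter (fun p : ℕ => p.Prime ∧ p ∉ R ∧ ∀ i, ¬ (p : ℤ) ∣ 2 * d i),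
    (((average F d p - p * divisorTrace σ d p) * Real.log p : ℝ) : ℂ) * (p : ℂ) ^ (-s)

open Classical in
/-- `1` if the factors are different, else `3/2`. -/
noncomputable def edge (σ : Fin q → Fin k) : ℝ := if Function.Injective σ then 1 else 3 / 2

/-- The digit number `i` (counted from the right, beginning with `0`) of `n` in base `b`. -/
def digit (b i n : ℕ) : ℕ := n / b ^ i % b

/-- The number which arises from the number `N` with at most `K` digits in base `b`, if for every `i ∈ S`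
the digit number `i` is replaced by `f i`. -/
def change (b K N : ℕ) (f : ℕ → ℕ) (S : Finset ℕ) : ℕ :=
  ∑ i ∈ range K, (if i ∈ S then f i else digit b i N) * b ^ i

open Classical in
/-- The number of the choices of `r l` of `K l` positions for all indices `l` for which the vector of the numbers obtained by
changing the digits of the `N l` at the chosen positions (according to `f l`) does not have the property `E`. -/
noncomputable def exceptions {ι : Type} [Fintype ι] [DecidableEq ι] (b : ℕ) (K r N : ι → ℕ) (f : ι → ℕ → ℕ)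
    (E : (ι → ℕ) → Prop) : ℕ :=
  ((Fintype.piFinset (fun l => powersetCard (r l) (range (K l)))).filter
    (fun S => ¬ E (fun l => change b (K l) (N l) (f l) (S l)))).card

/-- **The Frobenius averages of almost all members of thin families of fibrations in products of curves.** `s` is an arbitrary
integer vector, to which the vector of the changed numbers is added; `P` is a nonzero polynomial in the coefficients (for instance a
discriminant) and `R` any set of divisors of its value at the coefficients. -/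
theorem result (hk : 1 ≤ k) (ha : 2 ≤ a₀) (he : 1 ≤ e) (F : Fin k → MvPolynomial (Fin (m + 1 + 1)) ℤ)
    (hF : ∀ i, MonicOdd a₀ (F i)) (σ : Fin q → Fin k)
    (P : MvPolynomial (Fin k × (Fin a₀ × (Fin (m + 1) → Fin (e + 1)))) ℤ) (hP : P ≠ 0)
    (b : ℕ) (hb : 2 ≤ b) (δ : ℝ) (hδ : 0 < δ) (hδ' : δ ≤ 1 / 2) (A B : ℕ) :
    ∃ c : ℝ, 0 < c ∧ ∃ y₀ : ℕ, ∀ (K r : Fin k × (Fin a₀ × (Fin (m + 1) → Fin (e + 1))) → ℕ) (y : ℕ),
      (∀ l, 2 * r l ≤ K l) → y₀ ≤ y → ∀ N : Fin k × (Fin a₀ × (Fin (m + 1) → Fin (e + 1))) → ℕ, (∀ l, N l < b ^ K l) →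
      ∀ f : Fin k × (Fin a₀ × (Fin (m + 1) → Fin (e + 1))) → ℕ → ℕ, (∀ l j, f l j < b ∧ f l j ≠ digit b j (N l)) →
      ∀ s : Fin k × (Fin a₀ × (Fin (m + 1) → Fin (e + 1))) → ℤ,
      (exceptions b K r N f (fun n => ∀ T₁ T₂ : ℕ, y ≤ T₁ → T₁ ≤ T₂ → (∀ l, (T₂ : ℝ) ≤ Real.exp (c * r l)) →
        ∀ d : Fin q → ℤ, (∀ i, |d i| ≤ (T₁ : ℤ) ^ B) → ∀ R : Set ℕ, (∀ p ∈ R, (p : ℤ) ∣ MvPolynomial.eval (fun l => s l + n l) P) →
        ∀ z : ℂ, edge σ + 2 * δ ≤ z.re →
        ‖series (fun i => equation F (fun l => s l + n l) (σ i)) σ d R T₁ T₂ z‖ ≤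
          (q : ℝ) ^ 2 * ((2 + 4 * ‖z - 1‖ / δ) * (T₁ : ℝ) ^ (-δ))) : ℝ) ≤
      1 / (y : ℝ) ^ A * ∏ l, ((K l).choose (r l) : ℝ) := by
  classical
  haveI : NeZero k := ⟨by omega⟩
  obtain ⟨θ, hθ⟩ : ∃ θ : ℝ, θ = if Function.Injective σ then 0 else 1 / 2 := ⟨_, rfl⟩
  have hedge : edge σ = 1 + θ := by
    rw [hθ]
    unfold edge
    split_ifs <;> norm_num
  have hθ' : θ = 1 / 2 ∨ (θ = 0 ∧ Function.Injective σ) := by
    by_cases h : Function.Injective σ
    · right
      rw [hθ, if_pos h]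
      exact ⟨rfl, h⟩
    · left
      rw [hθ, if_neg h]
  obtain ⟨c, hc, y₀, h⟩ := Pool.Agent.V11210.NF.P2.h2 (m := m) (k := k) (q := q) (a₀ := a₀) (e := e) ha he F
    (fun i => (MvPolynomial.finSuccEquiv ℤ (m + 1) (F i)).natDegree) (fun i => (hF i).2.1) (fun i => ⟨(hF i).1, rfl⟩)
    (fun i => (hF i).2.2) σ θ hθ' P hP b hb δ hδ hδ' A B
  refine ⟨c, hc, y₀, fun K r y hK hy N hN f hf s => ?_⟩
  have key := h K r y hK hy N hN f hf s (fun n => ∀ T₁ T₂ : ℕ, y ≤ T₁ → T₁ ≤ T₂ → (∀ l, (T₂ : ℝ) ≤ Real.exp (c * r l)) →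
        ∀ d : Fin q → ℤ, (∀ i, |d i| ≤ (T₁ : ℤ) ^ B) → ∀ R : Set ℕ, (∀ p ∈ R, (p : ℤ) ∣ MvPolynomial.eval (fun l => s l + n l) P) →
        ∀ z : ℂ, edge σ + 2 * δ ≤ z.re →
        ‖series (fun i => equation F (fun l => s l + n l) (σ i)) σ d R T₁ T₂ z‖ ≤
          (q : ℝ) ^ 2 * ((2 + 4 * ‖z - 1‖ / δ) * (T₁ : ℝ) ^ (-δ))) (by
    intro n hn T₁ T₂ hyT h12 hT d hd R hR z hz
    have h1 := hn T₁ T₂ hyT h12 hT d hd R hR (Classical.decPred _) z (by rw [← hedge]; exact hz)
      (fun p => average (fun i => equation F (fun l => s l + n l) (σ i)) d p - p * divisorTrace σ d p) (by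
      intro p hpF hp3 hd0
      show average (fun i => equation F (fun l => s l + n l) (σ i)) d p - p * divisorTrace σ d p = _
      unfold average
      rw [finsum_eq_sum_of_fintype]
      rfl)
    refine le_trans (le_of_eq ?_) h1
    unfold series
    congr 1
    refine sum_congr ?_ fun p _ => rfl
    ext p
    simp only [mem_filter])
  exact key

end Pool.Agent.Results.MP_6090f9_nt.FewDigitProducts
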