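import Pool.Agent.Y707.SF.Fin

/-!
# The residue formula for linear pencils of surfaces (fibrations of relative dimension two)

`V` is the variety of the points `(x, y)` with `y_i ^ 2 = G_i(x)` over the number field `K`, for
polynomials `G_i` in `k` variables such that no product of some of them is a constant times a square.
The surfaces are the double covers `Y ^ 2 = a(x, t, X) + w ∏ (X - α_j(x, t))` of the Hirzebruch surface
`F_{2n}`, with polynomials of degree `2 g + 1` in `X`: over the line with coordinate `t` they are fibred
into curves of genus `g`.  For `g = 1` they are linear families of elliptic surfaces with a section over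
the line: rational surfaces for `n = 1`, K3 surfaces for `n = 2`, and surfaces of Kodaira dimension one
for `n ≥ 3`.  The base is `𝒴 = V × 𝔸¹`, of dimension `k + 1`, and the function field of
the base over the number field `E ⊇ K` is `E(V)(w)`.

`averageTwo` is the fibre average `𝔅_v` of the traces of the Frobenius on `H²` of the fibres, at the
prime `v` of `E`, over the points `(x, y, w)` of the base with `y_i ≠ 0` over which the surface is smooth
with smooth fibre over `t = ∞`.  (The other points of a projective model of the base change `𝔅_v` by
`O(1)`, which does not affect the residue at `s = 2`.)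
-/

set_option autoImplicit false
set_option maxHeartbeats 400000

namespace Pool.Agent.Results.MP_6090f9_nt.SurfacePencils

open Polynomial NumberField IsDedekindDomain Pool.Agent.Y707.PC Pool.Agent.Y707.PR
  Pool.Agent.Y707.SF

theorem result (K : Type) [Field K] [NumberField K] (k l r g n : ℕ)
    (G : Fin l → MvPolynomial (Fin k) (𝓞 K)) (a : (MvPolynomial (Fin k) (𝓞 K))[X][X])
    (α : Fin r → (MvPolynomial (Fin k) (𝓞 K))[X]) (h : IsSurfacePencil g n G a α)
    (E : IntermediateField K (AlgebraicClosure K)) [NumberField E] :
    -- the analytic side: the residue at `s = 2` of `F(s) = ∑ 𝔅_v (log q_v) q_v^{-s}` over `v ∉ R`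
    (∀ R : Finset (HeightOneSpectrum (𝓞 E)),
      HasResidue R (fun v => averageTwo g n G a α
        ((Ideal.Quotient.mk v.asIdeal).comp (algebraMap (𝓞 K) (𝓞 E)))) 2 (classes G a α E + 2)) ∧
    -- the algebraic side: the rank of the Néron-Severi group of the generic fibre over `M(w)`, for
    -- the function field `M` of `V` over `E`
    (∀ (M : Type) [Field M] [Algebra E M] (ξ : Fin k → M) (η : Fin l → M),
      IsFunctionField G E ξ η → IsSmoothSurface g n (genericSurface a α E ξ) ∧
        PicardRankAddTwo (genericSurface a α E ξ) (classes G a α E)) ∧
    -- the function field exists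
    (∃ (M : Type) (_ : Field M) (_ : Algebra E M) (ξ : Fin k → M) (η : Fin l → M),
      IsFunctionField G E ξ η) :=
  ⟨fun R => surface_residue h E R, fun _ _ _ _ _ hM => surface_algebraic h E hM, exists_field G E⟩

end Pool.Agent.Results.MP_6090f9_nt.SurfacePencils
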