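import Pool.Agent.V1194.LP.Edge
import Pool.Agent.H921R2.TatePole.Dedekind

/-!
# The residue of the series of the fibre averages from one weighted sum

Let `k` be a number field, `f : 𝒳 → 𝒴` a fibration over `k` as in the problem, `m = dim 𝒴`, and for the primes
`𝔭 ∉ R` let `𝔅_𝔭 = q_𝔭^{-m} ∑_{y ∈ 𝒴_𝔭(𝔽_𝔭)} b_𝔭(y)`, `b_𝔭(y)` the trace of Frobenius on `H^2` of the fibre over
`y`. By Deligne's theorem `|𝔅_𝔭| ≤ C q_𝔭`; nothing else is used about the averages. Let
`F(s) = ∑_{𝔭 ∉ R} 𝔅_𝔭 (log q_𝔭) q_𝔭^{-s}`, and suppose that the function `E(s) = exp ∑_{𝔭 ∉ R} 𝔅_𝔭 q_𝔭^{-s}`, `Re s > 2`,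
has a meromorphic continuation to the one point `s = 2`. Nothing is assumed on its zeros and poles, at `2` or
elsewhere. Then `F` has a meromorphic continuation to a neighbourhood of `2` with at most a simple pole at `2`,
whose residue is an integer `ρ`. For real `γ > π/2` and `X > 1` let

`V(X) = ∑_{𝔭 ∉ R} 𝔅_𝔭 q_𝔭^{-2} cos(γu) / Γ(1 + u)`, `u = log q_𝔭 / log X`.

The sum converges absolutely, and `V(X) = c + ρ (log log X - λ) + O(1 / log X)`; for every integer `r`, for example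
`r = rank NS(X/k(𝒴))`,

* `ρ = r` if and only if `V(X) - r log log X` is bounded for `X → ∞`;
* `ρ ≥ r` if and only if it is bounded below;
* `ρ ≤ r` if and only if it is bounded above.

The law for rotated sums at a real point is `V11288.LZ` (helper288); the residue of the logarithmic derivative and the
real form are in `V1194.LP.Edge`.
-/

set_option autoImplicit false

namespace Pool.Agent.Results.MP_6090f9_nt.WeightedFibreAverages

open Filter Topology Set NumberField IsDedekindDomain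

variable {k : Type} [Field k] [NumberField k]

/-- The norm `q_𝔭`. -/
noncomputable def nrm (p : HeightOneSpectrum (𝓞 k)) : ℝ := (Ideal.absNorm p.asIdeal : ℝ)

/-- The fibre average `𝔅_𝔭 = q_𝔭^{-m} ∑_y b_𝔭(y)`. Here `Y 𝔭` is the finite set `𝒴_𝔭(𝔽_𝔭)`, and `b 𝔭 y` is the
trace of Frobenius on `H^2` of the fibre over `y`. -/
noncomputable def average (m : ℕ) (Y : HeightOneSpectrum (𝓞 k) → Type) [∀ p, Fintype (Y p)]
    (b : ∀ p, Y p → ℝ) (p : HeightOneSpectrum (𝓞 k)) : ℝ :=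
  (∑ y, b p y) / nrm p ^ m

/-- The Dirichlet series `F(s) = ∑_{𝔭 ∉ R} B_𝔭 (log q_𝔭) q_𝔭^{-s}`. -/
noncomputable def series (R : Set (HeightOneSpectrum (𝓞 k))) (B : HeightOneSpectrum (𝓞 k) → ℝ)
    (s : ℂ) : ℂ :=
  ∑' p : {p : HeightOneSpectrum (𝓞 k) // p ∉ R},
    ((B p.1 * Real.log (nrm p.1) : ℝ) : ℂ) * (nrm p.1 : ℂ) ^ (-s)

/-- `E(s) = exp ∑_{𝔭 ∉ R} B_𝔭 q_𝔭^{-s}` for `Re s > 2`, and `E` is meromorphic at the point `2`. -/
structure IsExponential (R : Set (HeightOneSpectrum (𝓞 k))) (B : HeightOneSpectrum (𝓞 k) → ℝ)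
    (E : ℂ → ℂ) : Prop where
  eq : ∀ s : ℂ, 2 < s.re → E s = Complex.exp (∑' p : {p : HeightOneSpectrum (𝓞 k) // p ∉ R},
    (B p.1 : ℂ) * (nrm p.1 : ℂ) ^ (-s))
  mero : MeromorphicAt E 2

/-- `F` has a meromorphic continuation `G` to a neighbourhood of `s = 2`, with at most a simple pole at `2`, and
the residue `ρ`. -/
def HasResidue (R : Set (HeightOneSpectrum (𝓞 k))) (B : HeightOneSpectrum (𝓞 k) → ℝ) (ρ : ℤ) : Prop :=
  ∃ G : ℂ → ℂ, MeromorphicAt G 2 ∧ Tendsto (fun s => (s - 2) * G s) (𝓝[≠] 2) (𝓝 (ρ : ℂ)) ∧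
    ∃ r : ℝ, 0 < r ∧ ∀ s : ℂ, 2 < s.re → ‖s - 2‖ < r → G s = series R B s

/-- The term `B_𝔭 q_𝔭^{-2} cos(γu) / Γ(1 + u)`, `u = log q_𝔭 / log X`. -/
noncomputable def term (B : HeightOneSpectrum (𝓞 k) → ℝ) (γ X : ℝ) (p : HeightOneSpectrum (𝓞 k)) : ℝ :=
  B p * Real.cos (γ * (Real.log (nrm p) / Real.log X)) /
    (nrm p ^ 2 * Real.Gamma (1 + Real.log (nrm p) / Real.log X))

/-- `V(X)`, the sum over `𝔭 ∉ R`. -/
noncomputable def V (R : Set (HeightOneSpectrum (𝓞 k))) (B : HeightOneSpectrum (𝓞 k) → ℝ) (γ X : ℝ) : ℝ :=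
  ∑' p : {p : HeightOneSpectrum (𝓞 k) // p ∉ R}, term B γ X p.1

/-- `λ_γ`, the real part of `∫_0^∞ (e^{-t} - e^{iγt}/Γ(1 + t)) dt/t`. -/
noncomputable def lam (γ : ℝ) : ℝ := (∫ t in Ioi (0 : ℝ),
  (Complex.exp (-(t : ℂ)) -
    Complex.exp ((γ * t : ℝ) * Complex.I) * ((Real.Gamma (1 + t))⁻¹ : ℝ)) / t).re

open Pool.Agent.V1194.LP
open Pool.Agent.H921R2.TatePole (nm two_le_nm nm_summable)

theorem q_two (p : HeightOneSpectrum (𝓞 k)) : 2 ≤ nrm p := by
  unfold nrm
  exact_mod_cast two_le_nm p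

instance countable_primes : Countable (HeightOneSpectrum (𝓞 k)) := by
  have h1 := (nm_summable (K := k) (x := 2) (by norm_num)).countable_support
  have h2 : Function.support (fun v : HeightOneSpectrum (𝓞 k) => (nm v : ℝ) ^ (-(2 : ℝ))) =
      Set.univ := by
    ext v
    simp only [Function.mem_support, Set.mem_univ, iff_true]
    have hp2 : (2 : ℝ) ≤ nm v := by exact_mod_cast two_le_nm v
    have : (0 : ℝ) < nm v := by linarith
    positivity
  rwa [h2, Set.countable_univ_iff] at h1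

variable {R : Set (HeightOneSpectrum (𝓞 k))} {B : HeightOneSpectrum (𝓞 k) → ℝ} {E : ℂ → ℂ}

/-- the exponents -/
noncomputable def ex (R : Set (HeightOneSpectrum (𝓞 k))) (p : {p : HeightOneSpectrum (𝓞 k) // p ∉ R}) :
    ℝ := Real.log (nrm p.1)

/-- the coefficients -/
noncomputable def co (R : Set (HeightOneSpectrum (𝓞 k))) (B : HeightOneSpectrum (𝓞 k) → ℝ)
    (p : {p : HeightOneSpectrum (𝓞 k) // p ∉ R}) : ℝ := B p.1

theorem pow_eq (p : HeightOneSpectrum (𝓞 k)) (s : ℂ) :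
    (nrm p : ℂ) ^ (-s) = Complex.exp (-(s * (Real.log (nrm p) : ℝ))) := by
  have h2 := q_two p
  have h0 : (nrm p : ℂ) ≠ 0 := by
    have : nrm p ≠ 0 := by linarith
    exact_mod_cast this
  rw [Complex.cpow_def_of_ne_zero h0, ← Complex.ofReal_log (by linarith)]
  congr 1
  ring

theorem edge {C : ℝ} (hC : ∀ p ∉ R, |B p| ≤ C * nrm p) (hE : IsExponential R B E) :
    Edge (ex R) (co R B) E 2 where
  nonneg := fun p => Real.log_nonneg (by linarith [q_two p.1])
  sum := fun x hx => by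
    have h1 : Summable fun p : {p : HeightOneSpectrum (𝓞 k) // p ∉ R} =>
        C * (nm p.1 : ℝ) ^ (-(x - 1)) :=
      ((nm_summable (K := k) (x := x - 1) (by linarith)).subtype {p | p ∉ R}).mul_left _
    refine Summable.of_nonneg_of_le (fun p => by positivity) (fun p => ?_) h1
    have hq2 := q_two p.1
    have hq0 : 0 < nrm p.1 := by linarith
    have e1 : Real.exp (-(x * ex R p)) = nrm p.1 ^ (-x) := by
      rw [Real.rpow_def_of_pos hq0]
      congr 1
      unfold ex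
      ring
    have e2 : (nm p.1 : ℝ) = nrm p.1 := rfl
    rw [e1, e2]
    calc |co R B p| * nrm p.1 ^ (-x) ≤ C * nrm p.1 * nrm p.1 ^ (-x) :=
          mul_le_mul_of_nonneg_right (hC p.1 p.2) (by positivity)
      _ = C * (nrm p.1 ^ (1 : ℝ) * nrm p.1 ^ (-x)) := by rw [Real.rpow_one, mul_assoc]
      _ = _ := by
        rw [← Real.rpow_add hq0]
        congr 2
        ring
  eq := fun s hs => by
    rw [hE.eq s hs]
    congr 1
    refine tsum_congr fun p => ?_
    rw [pow_eq]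
    rfl
  mero := by simpa using hE.mero

theorem term_eq (γ X : ℝ) (p : {p : HeightOneSpectrum (𝓞 k) // p ∉ R}) :
    rd (ex R) (co R B) 2 γ X p = term B γ X p.1 := by
  have hq2 := q_two p.1
  have hq0 : 0 < nrm p.1 := by linarith
  unfold rd term ex co
  have e1 : Real.exp (-(2 * Real.log (nrm p.1))) = (nrm p.1 ^ 2)⁻¹ := by
    rw [Real.exp_neg, two_mul, Real.exp_add, Real.exp_log hq0, sq]
  rw [e1]
  have h2 : nrm p.1 ^ 2 ≠ 0 := by positivity
  field_simp

theorem V_eq (γ X : ℝ) : ∑' p, rd (ex R) (co R B) 2 γ X p = V R B γ X :=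
  tsum_congr fun p => term_eq γ X p

theorem series_eq (s : ℂ) :
    ∑' p, (co R B p : ℂ) * (ex R p : ℂ) * Complex.exp (-(s * ex R p)) = series R B s := by
  unfold series
  refine tsum_congr fun p => ?_
  rw [pow_eq]
  unfold co ex
  push_cast
  rfl

/-- **The residue of the series of the fibre averages from one weighted sum.** -/
theorem result (R : Set (HeightOneSpectrum (𝓞 k))) (m : ℕ) (Y : HeightOneSpectrum (𝓞 k) → Type)
    [∀ p, Fintype (Y p)] (b : ∀ p, Y p → ℝ) (C : ℝ) (hC : ∀ p ∉ R, |average m Y b p| ≤ C * nrm p)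
    (E : ℂ → ℂ) (hE : IsExponential R (average m Y b) E) (γ : ℝ) (hγ : Real.pi / 2 < γ) :
    (∀ X : ℝ, 1 < X → Summable fun p : {p : HeightOneSpectrum (𝓞 k) // p ∉ R} =>
      |term (average m Y b) γ X p.1|) ∧
    ∃ (ρ : ℤ) (c : ℝ), HasResidue R (average m Y b) ρ ∧
      (fun X : ℝ => V R (average m Y b) γ X - (c + ρ * (Real.log (Real.log X) - lam γ))) =O[atTop]
        (fun X : ℝ => 1 / Real.log X) ∧
      (∀ r : ℤ, ρ = r ↔
        ∃ A : ℝ, ∀ᶠ X : ℝ in atTop, |V R (average m Y b) γ X - r * Real.log (Real.log X)| ≤ A) ∧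
      (∀ r : ℤ, r ≤ ρ ↔
        ∃ A : ℝ, ∀ᶠ X : ℝ in atTop, A ≤ V R (average m Y b) γ X - r * Real.log (Real.log X)) ∧
      (∀ r : ℤ, ρ ≤ r ↔
        ∃ A : ℝ, ∀ᶠ X : ℝ in atTop, V R (average m Y b) γ X - r * Real.log (Real.log X) ≤ A) := by
  have D := edge hC hE
  obtain ⟨h1, n, A₀, -, hn, -, h2, h3, h4, h5⟩ := D.law hγ
  simp only [term_eq] at h1
  simp only [V_eq] at h2 h3 h4 h5
  have hlam : (Pool.Agent.W187.UR.Lam γ).re = lam γ := rfl
  rw [hlam] at h2
  refine ⟨h1, -n, Real.log ‖A₀‖, ?_, ?_, fun r => ?_, fun r => ?_, fun r => ?_⟩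
  · obtain ⟨G, g1, g2, δ, hδ, g3⟩ := D.residue hn
    refine ⟨G, by simpa using g1, ?_, δ, hδ, fun s hs hsδ => ?_⟩
    · have e1 : ((-n : ℤ) : ℂ) = -(n : ℂ) := by push_cast; rfl
      rw [e1]
      simpa using g2
    · rw [g3 s hs (by simpa using hsδ), series_eq]
  · refine h2.congr_left fun X => ?_
    push_cast
    ring
  · have h6 := h3 (-r)
    rw [neg_eq_iff_eq_neg, h6]
    refine exists_congr fun A => eventually_congr (Eventually.of_forall fun X => ?_)
    push_cast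
    rw [neg_mul, ← sub_eq_add_neg]
  · have h6 := h5 (-r)
    rw [le_neg, h6]
    refine exists_congr fun A => eventually_congr (Eventually.of_forall fun X => ?_)
    push_cast
    rw [neg_mul, ← sub_eq_add_neg]
  · have h6 := h4 (-r)
    rw [neg_le, h6]
    refine exists_congr fun A => eventually_congr (Eventually.of_forall fun X => ?_)
    push_cast
    rw [neg_mul, ← sub_eq_add_neg]

end Pool.Agent.Results.MP_6090f9_nt.WeightedFibreAverages
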